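import Pool.Agent.H27.G.R_seed8.W123.LR.Gen
import Pool.Agent.H27.G.R_pool_sql_team_seeded_843ab51a.H243.BP.Abs

set_option autoImplicit false

/-!
# The sieve input, in shifted coordinates
-/

namespace Pool.Agent.H243.BP

open Finset Filter Pool.Agent.W123.RP

/-- the shifted set -/
def sh (P : ℕ → Prop) (s m : ℕ) : Prop := P (m + s)

open Classical in
lemma co_sh (P : ℕ → Prop) (s a b : ℕ) : co (sh P s) a b = co P (a + s) (b + s) := by
  unfold co
  apply Finset.card_bij (fun n _ => n + s)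
  · intro n hn
    rw [mem_filter, mem_Ioc] at hn ⊢
    exact ⟨⟨by omega, by omega⟩, hn.2⟩
  · intro n _ m _ h
    omega
  · intro m hm
    rw [mem_filter, mem_Ioc] at hm
    refine ⟨m - s, ?_, by omega⟩
    rw [mem_filter, mem_Ioc]
    have e : m - s + s = m := by omega
    unfold sh
    rw [e]
    exact ⟨⟨by omega, by omega⟩, hm.2⟩

/-- Brun-Titchmarsh for intervals -/
lemma bt : ∃ C : ℝ, 1 ≤ C ∧ ∀ A N : ℕ, 2 ≤ N →
    (((Finset.Ioc A (A + N)).filter Nat.Prime).card : ℝ) ≤ C * N / Real.log N := by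
  obtain ⟨C, hC, h⟩ := Helper601.brun_titchmarsh
  refine ⟨C, hC, fun A N hN => ?_⟩
  refine le_trans ?_ (h (A + 1) 1 N hN (Or.inl rfl))
  have : ((Finset.Ioc A (A + N)).filter Nat.Prime).card ≤
      ((Finset.range N).filter (fun k => (A + 1 + k * 1).Prime)).card := by
    apply card_le_card_of_injOn (fun n => n - (A + 1))
    · intro n hn
      rw [mem_coe, mem_filter, mem_Ioc] at hn
      rw [mem_coe, mem_filter, mem_range]
      beta_reduce
      refine ⟨by omega, ?_⟩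
      have e : A + 1 + (n - (A + 1)) * 1 = n := by omega
      show (A + 1 + (n - (A + 1)) * 1).Prime
      rw [e]; exact hn.2
    · intro n hn m hm h'
      rw [mem_coe, mem_filter, mem_Ioc] at hn hm
      simp only at h'
      omega
  exact_mod_cast this

open Classical in
/-- the common analytic input, in shifted coordinates -/
lemma input (θ : ℝ) (h0 : 0 < θ) : ∃ C1 C2 : ℝ, 0 < C1 ∧ 0 < C2 ∧ ∀ B0 : ℝ,
    ∀ᶠ X : ℕ in atTop, ∀ Y : ℕ, (X : ℝ) ^ θ ≤ Y → Y ≤ X → 3 ≤ X ∧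
      2 ≤ Real.log X ∧ Real.log X ≤ Y ∧ B0 * Real.log X ^ 2 ≤ Y ∧
      (co (sh Nat.Prime (X - Y)) 0 (4 * Y) : ℝ) ≤ C1 * Y / Real.log X ∧
      ∑ n ∈ Finset.Ico (Y + 1 - ⌊Real.log X⌋₊) (2 * Y + 1),
        ((co (sh Nat.Prime (X - Y)) n (n + ⌊Real.log X⌋₊) : ℝ)) ^ 2 ≤ C2 * Y := by
  obtain ⟨C, hC, hbt⟩ := bt
  obtain ⟨D1, hD1, u0, hps⟩ := Pool.Agent.H357R2.SI.pair_sieve
  obtain ⟨D2, hD2, hsg⟩ := Pool.Agent.H357R2.SI.sum_sg_sq
  refine ⟨4 * C / θ, 3 * C / θ + 6 * D1 * D2 / θ ^ 2, by positivity, by positivity, ?_⟩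
  intro B0
  have hXr : Tendsto (fun X : ℕ => (X : ℝ)) atTop atTop := tendsto_natCast_atTop_atTop
  have hlogX : Tendsto (fun X : ℕ => Real.log (X : ℝ)) atTop atTop :=
    Real.tendsto_log_atTop.comp hXr
  have hpow : Tendsto (fun X : ℕ => (X : ℝ) ^ θ) atTop atTop :=
    (tendsto_rpow_atTop h0).comp hXr
  have hpl : ∀ᶠ X : ℕ in atTop, (|B0| + 1) * Real.log X ^ 2 ≤ (X : ℝ) ^ θ := by
    have h := ((isLittleO_log_rpow_rpow_atTop 2 h0).comp_tendsto hXr).bound
      (by positivity : (0 : ℝ) < 1 / (|B0| + 1))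
    filter_upwards [h, eventually_ge_atTop 1] with X hX hX1
    have hX1' : (1 : ℝ) ≤ X := by exact_mod_cast hX1
    have hl := Real.log_nonneg hX1'
    simp only [Function.comp_def] at hX
    rw [Real.norm_of_nonneg (by positivity), Real.norm_of_nonneg (by positivity)] at hX
    have e : Real.log (X : ℝ) ^ (2 : ℝ) = Real.log (X : ℝ) ^ 2 := by
      rw [← Real.rpow_natCast]; norm_num
    rw [e] at hX
    have hb : 0 < |B0| + 1 := by positivity
    calc (|B0| + 1) * Real.log X ^ 2 ≤ (|B0| + 1) * (1 / (|B0| + 1) * (X : ℝ) ^ θ) := by gcongr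
      _ = (X : ℝ) ^ θ := by field_simp
  filter_upwards [eventually_ge_atTop 3, hlogX.eventually_ge_atTop 2, hpl,
    hpow.eventually_ge_atTop ((u0 : ℝ) + 2)] with X hX3 hL2 hpl hbig
  intro Y hY hYX
  have hX3r : (3 : ℝ) ≤ X := by exact_mod_cast hX3
  have hXpos : (0 : ℝ) < X := by linarith
  have hL0 : 0 < Real.log X := by linarith
  have hYbig : (u0 : ℝ) + 2 ≤ Y := hbig.trans hY
  have hYbign : u0 + 2 ≤ Y := by exact_mod_cast hYbig
  have hYpos : (0 : ℝ) < Y := by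
    have : 0 < Y := by omega
    exact_mod_cast this
  have hsq : Real.log X ≤ Real.log X ^ 2 := by nlinarith
  have hb : B0 ≤ |B0| := le_abs_self B0
  have hb0 : 0 ≤ |B0| := abs_nonneg _
  have hB : B0 * Real.log X ^ 2 ≤ Y := by
    refine le_trans ?_ (hpl.trans hY)
    have : 0 ≤ Real.log X ^ 2 := sq_nonneg _
    nlinarith
  have hLY : Real.log X ≤ Y := by
    refine le_trans ?_ (hpl.trans hY)
    have : 0 ≤ Real.log X ^ 2 := sq_nonneg _
    nlinarith
  set L : ℝ := Real.log X with hL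
  obtain ⟨T, hT⟩ : ∃ T : ℕ, T = ⌊L⌋₊ := ⟨_, rfl⟩
  have hTL : (T : ℝ) ≤ L := by rw [hT]; exact Nat.floor_le hL0.le
  have hTY : T ≤ Y := by
    have : (T : ℝ) ≤ Y := by linarith
    exact_mod_cast this
  have hT0 : (0 : ℝ) ≤ T := Nat.cast_nonneg T
  refine ⟨hX3, hL2, hLY, hB, ?_, ?_⟩
  · rw [co_sh]
    have h3 := hbt (0 + (X - Y)) (4 * Y) (by omega)
    have e : 0 + (X - Y) + 4 * Y = 4 * Y + (X - Y) := by ring
    rw [e] at h3
    unfold co
    have h5 : (((Finset.Ioc (0 + (X - Y)) (4 * Y + (X - Y))).filter Nat.Prime).card : ℝ) ≤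
        C * ((4 * Y : ℕ) : ℝ) / Real.log ((4 * Y : ℕ) : ℝ) := h3
    have hlog : θ * L ≤ Real.log ((4 * Y : ℕ) : ℝ) := by
      rw [hL, ← Real.log_rpow hXpos]
      apply Real.log_le_log (by positivity)
      push_cast
      linarith
    have h4 : C * ((4 * Y : ℕ) : ℝ) / Real.log ((4 * Y : ℕ) : ℝ) ≤
        C * ((4 * Y : ℕ) : ℝ) / (θ * L) := by
      gcongr
    have h6 : C * ((4 * Y : ℕ) : ℝ) / (θ * L) = 4 * C / θ * Y / L := by
      push_cast
      field_simp
    rw [← h6]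
    refine le_trans ?_ (h5.trans h4)
    apply le_of_eq
    congr 2
    apply Finset.filter_congr_decidable
  · rw [← hT]
    have e1 : ∑ n ∈ Finset.Ico (Y + 1 - T) (2 * Y + 1),
        ((co (sh Nat.Prime (X - Y)) n (n + T) : ℝ)) ^ 2 =
        ∑ n ∈ Finset.Ico (X + 1 - T) (X + 1 - T + (Y + T)),
          ((Pool.Agent.H357R2.SI.pc n (n + T) : ℝ)) ^ 2 := by
      apply Finset.sum_bij (fun n _ => n + (X - Y))
      · intro n hn
        rw [mem_Ico] at hn ⊢
        omega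
      · intro n _ m _ h
        omega
      · intro m hm
        rw [mem_Ico] at hm
        exact ⟨m - (X - Y), by rw [mem_Ico]; omega, by omega⟩
      · intro n _
        rw [co_sh]
        have : n + T + (X - Y) = n + (X - Y) + T := by ring
        rw [this]
        unfold co Pool.Agent.H357R2.SI.pc
        congr 3
        apply Finset.filter_congr_decidable
    rw [e1]
    have hlogZ : θ * L ≤ Real.log ((Y + T + T : ℕ) : ℝ) := by
      rw [hL, ← Real.log_rpow (by linarith)]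
      apply Real.log_le_log (by positivity)
      push_cast
      linarith
    have hTYr : (T : ℝ) ≤ Y := by exact_mod_cast hTY
    have hZ2 : ((Y + T + T : ℕ) : ℝ) ≤ 3 * Y := by push_cast; linarith
    have h1 : (∑ n ∈ Finset.Ico (X + 1 - T) (X + 1 - T + (Y + T)),
          ((Pool.Agent.H357R2.SI.pc n (n + T) : ℝ)) ^ 2) ≤
        T * (((Pool.Agent.W123.LR.PA (X + 1 - T) (Y + T + T)).card : ℝ) + 2 * ∑ h ∈ Finset.Icc 1 T,
          (((Finset.Ioc (X + 1 - T) (X + 1 - T + (Y + T + T))).filter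
            (fun n => n.Prime ∧ (n + h).Prime)).card : ℝ)) := by
      exact_mod_cast Pool.Agent.W123.LR.second_moment_loc (X + 1 - T) (Y + T) T
    have h2 : ((Pool.Agent.W123.LR.PA (X + 1 - T) (Y + T + T)).card : ℝ) ≤ 3 * C * Y / (θ * L) := by
      have h3 := hbt (X + 1 - T) (Y + T + T) (by omega)
      refine h3.trans ?_
      apply div_le_div₀ (by positivity) _ (by positivity) hlogZ
      nlinarith
    have h3 : ∀ h ∈ Finset.Icc 1 T,
        (((Finset.Ioc (X + 1 - T) (X + 1 - T + (Y + T + T))).filter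
          (fun n => n.Prime ∧ (n + h).Prime)).card : ℝ) ≤
        3 * D1 * Y / (θ * L) ^ 2 * Pool.Agent.H357R2.SI.sg h ^ 2 := by
      intro h hh
      rw [Finset.mem_Icc] at hh
      refine (hps h (X + 1 - T) (Y + T + T) (by omega) (by omega)).trans ?_
      calc D1 * Pool.Agent.H357R2.SI.sg h ^ 2 * ((Y + T + T : ℕ) : ℝ) /
            Real.log ((Y + T + T : ℕ) : ℝ) ^ 2
          ≤ D1 * Pool.Agent.H357R2.SI.sg h ^ 2 * (3 * Y) / (θ * L) ^ 2 := by
            apply div_le_div₀ (by positivity) _ (by positivity)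
            · gcongr
            · gcongr
        _ = 3 * D1 * Y / (θ * L) ^ 2 * Pool.Agent.H357R2.SI.sg h ^ 2 := by ring
    have h4 : ∑ h ∈ Finset.Icc 1 T,
        (((Finset.Ioc (X + 1 - T) (X + 1 - T + (Y + T + T))).filter
          (fun n => n.Prime ∧ (n + h).Prime)).card : ℝ) ≤
        3 * D1 * Y / (θ * L) ^ 2 * (D2 * T) := by
      refine (Finset.sum_le_sum h3).trans ?_
      rw [← Finset.mul_sum]
      exact mul_le_mul_of_nonneg_left (hsg T) (by positivity)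
    have h5 : (T : ℝ) * (3 * C * Y / (θ * L)) ≤ 3 * C / θ * Y := by
      calc (T : ℝ) * (3 * C * Y / (θ * L)) ≤ L * (3 * C * Y / (θ * L)) := by gcongr
        _ = 3 * C / θ * Y := by field_simp
    have h6 : (T : ℝ) * (2 * (3 * D1 * Y / (θ * L) ^ 2 * (D2 * T))) ≤ 6 * D1 * D2 / θ ^ 2 * Y := by
      calc (T : ℝ) * (2 * (3 * D1 * Y / (θ * L) ^ 2 * (D2 * T))) ≤
          L * (2 * (3 * D1 * Y / (θ * L) ^ 2 * (D2 * L))) := by gcongr
        _ = 6 * D1 * D2 / θ ^ 2 * Y := by field_simp; ring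
    calc _ ≤ _ := h1
      _ ≤ T * (3 * C * Y / (θ * L) + 2 * (3 * D1 * Y / (θ * L) ^ 2 * (D2 * T))) := by
          apply mul_le_mul_of_nonneg_left _ hT0
          linarith
      _ = T * (3 * C * Y / (θ * L)) + T * (2 * (3 * D1 * Y / (θ * L) ^ 2 * (D2 * T))) := by ring
      _ ≤ (3 * C / θ + 6 * D1 * D2 / θ ^ 2) * Y := by linarith

/-- counting in shifted coordinates -/
lemma card_shift (X Y : ℕ) (hYX : Y ≤ X) (F G : ℕ → Prop) [DecidablePred F] [DecidablePred G]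
    (h : ∀ n, Y < n → n ≤ 2 * Y → F (n + (X - Y)) → G n) :
    ((Ioc X (X + Y)).filter F).card ≤ ((Ioc Y (2 * Y)).filter G).card := by
  apply Finset.card_le_card_of_injOn (fun n => n - (X - Y))
  · intro n hn
    rw [Finset.mem_coe, mem_filter, mem_Ioc] at hn
    rw [Finset.mem_coe, mem_filter, mem_Ioc]
    beta_reduce
    refine ⟨by omega, h _ (by omega) (by omega) ?_⟩
    have e : n - (X - Y) + (X - Y) = n := by omega
    rw [e]; exact hn.2
  · intro n hn m hm h'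
    rw [Finset.mem_coe, mem_filter, mem_Ioc] at hn hm
    simp only at h'
    omega

open Classical in
lemma bal_shift (P P' : ℕ → Prop) (lam L : ℝ) (X Y n : ℕ) (hn : Y < n)
    (h : Bal (sh P (X - Y)) (sh P' (X - Y)) lam L Y n) : Bal P P' lam L Y (n + (X - Y)) := by
  intro a b ha hb hab
  obtain ⟨a', ha'⟩ : ∃ a', a = a' + (X - Y) := ⟨a - (X - Y), by omega⟩
  obtain ⟨b', hb'⟩ : ∃ b', b = b' + (X - Y) := ⟨b - (X - Y), by omega⟩
  have h1 := h a' b' (by omega) (by omega) (by omega)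
  rw [co_sh, co_sh, ← ha', ← hb'] at h1
  have e : (b' : ℝ) - a' = (b : ℝ) - a := by rw [ha', hb']; push_cast; ring
  rwa [e] at h1

open Classical in
/-- **Balanced primes.** -/
theorem balanced_local (θ : ℝ) (h0 : 0 < θ) : ∃ C : ℝ, 0 < C ∧ ∀ᶠ X : ℕ in atTop, ∀ Y : ℕ,
    (X : ℝ) ^ θ ≤ Y → Y ≤ X → ∀ P : ℕ → Prop, (∀ n, P n → n.Prime) → ∀ lam : ℝ, 1 ≤ lam →
      (((Finset.Ioc X (X + Y)).filter (fun p => P p ∧
        ¬ Bal P Nat.Prime lam (Real.log X) Y p)).card : ℝ) ≤ C / √lam * (Y / Real.log X) := by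
  obtain ⟨C1, C2, hC1, hC2, h⟩ := input θ h0
  refine ⟨4 * √(2 * C1 * C2) + 8, by positivity, ?_⟩
  filter_upwards [h 0] with X hX
  intro Y hY hYX P hP lam hlam
  obtain ⟨-, hL2, hLY, -, hup, hmom⟩ := hX Y hY hYX
  have h1 := balanced_abs C1 C2 hC1 hC2 (sh P (X - Y)) (sh Nat.Prime (X - Y)) Y (Real.log X) hL2 hLY
    (fun n hn => hP _ hn) hup hmom lam hlam
  refine le_trans ?_ h1
  have h2 := card_shift X Y hYX (fun p => P p ∧ ¬ Bal P Nat.Prime lam (Real.log X) Y p)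
    (fun p => sh P (X - Y) p ∧ ¬ Bal (sh P (X - Y)) (sh Nat.Prime (X - Y)) lam (Real.log X) Y p)
    (fun n hn1 hn2 hn3 => ⟨hn3.1, fun hb =>
      hn3.2 (bal_shift P Nat.Prime lam (Real.log X) X Y n hn1 hb)⟩)
  exact_mod_cast h2

end Pool.Agent.H243.BP
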