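import Pool.Agent.H27.G.R_seed8.W123.GS.Loc
import Pool.Agent.H27.G.R_pool_sql_team_seeded_843ab51a.H243.BP.Input

set_option autoImplicit false

/-!
# Almost all points of a set see constant densities at all but boundedly many scales
-/

namespace Pool.Agent.H243.BP

open Finset Filter Pool.Agent.W123.RP Pool.Agent.W123.GS

open Classical in
lemma good_near (P : ℕ → Prop) (c₁ c₂ δ L : ℝ) (m g T j : ℕ) (h1 : m < g) (h2 : g ≤ m + T)
    (h3 : T ≤ 2 ^ j) (h : Good P c₁ c₂ (δ / 2) L m (j + 1)) : Good P c₁ c₂ δ L g j := by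
  obtain ⟨θ, a1, a2, a3⟩ := h
  refine ⟨θ, a1, a2, fun u v hu huv hv => ?_⟩
  have e : 2 ^ (j + 1) = 2 ^ j + 2 ^ j := by ring
  have h4 := a3 u v (by omega) huv (by omega)
  refine h4.trans (le_of_eq ?_)
  rw [pow_succ]
  ring

open Classical in
/-- the number of bad scales changes by at most one -/
lemma bad_near (P : ℕ → Prop) (c₁ c₂ δ L : ℝ) (R m g T : ℕ) (h1 : m < g) (h2 : g ≤ m + T)
    (h3 : (T : ℝ) ≤ L) :
    ((range (R + 1)).filter (fun j => L ≤ (2 : ℝ) ^ j ∧ ¬ Good P c₁ c₂ δ L g j)).card ≤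
      ((range (R + 1)).filter (fun j => L ≤ (2 : ℝ) ^ j ∧ ¬ Good P c₁ c₂ (δ / 2) L m j)).card + 1 := by
  have h4 : (range (R + 1)).filter (fun j => L ≤ (2 : ℝ) ^ j ∧ ¬ Good P c₁ c₂ δ L g j) ⊆
      (((range (R + 1)).filter (fun j => L ≤ (2 : ℝ) ^ j ∧ ¬ Good P c₁ c₂ δ L g j)).erase R) ∪ {R} := by
    intro j hj
    rw [mem_union, mem_singleton, mem_erase]
    by_cases h : j = R
    · exact Or.inr h
    · exact Or.inl ⟨h, hj⟩
  refine (card_le_card h4).trans ((card_union_le _ _).trans ?_)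
  rw [card_singleton]
  apply Nat.add_le_add_right
  apply card_le_card_of_injOn (fun j => j + 1)
  · intro j hj
    rw [mem_coe, mem_erase, mem_filter, mem_range] at hj
    obtain ⟨j1, j2, j3, j4⟩ := hj
    rw [mem_coe, mem_filter, mem_range]
    beta_reduce
    have hT : T ≤ 2 ^ j := by
      have : (T : ℝ) ≤ 2 ^ j := h3.trans j3
      exact_mod_cast this
    refine ⟨by omega, ?_, fun hg => j4 (good_near P c₁ c₂ δ L m g T j h1 h2 hT hg)⟩
    rw [pow_succ]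
    have : (0 : ℝ) < 2 ^ j := by positivity
    linarith
  · intro a _ b _ h
    simpa using h

open Classical in
/-- **Constant densities at the points of `P'`, abstract form.** -/
theorem scales_points (C1 C2 : ℝ) (hC1 : 0 < C1) (hC2 : 0 < C2) (η : ℝ) (hη : 0 < η) :
    ∃ c₂ : ℝ, 0 < c₂ ∧ ∀ δ : ℝ, 0 < δ → ∃ (K : ℕ) (B0 : ℝ), 0 < B0 ∧
      ∀ (P P' : ℕ → Prop) (X : ℕ) (L : ℝ), 2 ≤ L → L ≤ X → B0 * L ^ 2 ≤ X → (∀ n, P n → P' n) →
      (co P' 0 (4 * X) : ℝ) ≤ C1 * X / L →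
      ∑ n ∈ Finset.Ico (X + 1 - ⌊L⌋₊) (2 * X + 1), ((co P' n (n + ⌊L⌋₊) : ℝ)) ^ 2 ≤ C2 * X →
      (((Finset.Ioc X (2 * X)).filter (fun p => P' p ∧
        K < ((range (Nat.log 2 X + 1)).filter (fun j => L ≤ (2 : ℝ) ^ j ∧
          ¬ Good P 0 c₂ δ L p j)).card)).card : ℝ) ≤ η * (X / L) := by
  obtain ⟨η', hη'⟩ : ∃ η' : ℝ, η' = η ^ 2 / (16 * C2) := ⟨_, rfl⟩
  have hη'0 : 0 < η' := by rw [hη']; positivity
  refine ⟨4 * C1 / η', by positivity, fun δ hδ => ?_⟩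
  obtain ⟨Kb, B0, hB0, h⟩ := scales_all C1 C2 hC1 hC2 (δ / 2) η' (by positivity) hη'0
  refine ⟨Kb + 1, B0 + 2 / η, by positivity, ?_⟩
  intro P P' X L hL hLX hBX hPP hup hmom
  have hL0 : 0 < L := by linarith
  have hX0 : (0 : ℝ) < X := by linarith
  have hLsq : 0 ≤ L ^ 2 := sq_nonneg L
  have hsplit : B0 * L ^ 2 + 2 / η * L ^ 2 ≤ X := by linarith
  have hB1 : B0 * L ^ 2 ≤ X := by
    have : 0 ≤ 2 / η * L ^ 2 := by positivity
    linarith
  have hB2 : L ≤ η / 2 * (X / L) := by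
    have h1 : 2 / η * L ^ 2 ≤ X := by
      have : 0 ≤ B0 * L ^ 2 := by positivity
      linarith
    rw [← mul_div_assoc, le_div_iff₀ hL0]
    calc L * L = η / 2 * (2 / η * L ^ 2) := by field_simp
      _ ≤ η / 2 * X := by gcongr
  set T := ⌊L⌋₊ with hT
  have hTL : (T : ℝ) ≤ L := Nat.floor_le hL0.le
  have hTX : T ≤ X := by
    have : (T : ℝ) ≤ X := hTL.trans hLX
    exact_mod_cast this
  have hT2 : L / 2 ≤ T := by
    have := Nat.lt_floor_add_one L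
    rw [← hT] at this
    linarith
  have hT0 : (0 : ℝ) < T := by linarith
  have hT1 : 1 ≤ T := by
    have : 0 < T := by exact_mod_cast hT0
    omega
  have hm1 : ∑ n ∈ Finset.Ico X (2 * X + 1), ((co P' n (n + T) : ℝ)) ^ 2 ≤ C2 * X :=
    (Finset.sum_le_sum_of_subset_of_nonneg (Finset.Ico_subset_Ico_left (by omega))
      (fun _ _ _ => by positivity)).trans hmom
  have hm2 : ∑ n ∈ Finset.Ico (X + 1) (2 * X + 1), ((co P' n (n + T) : ℝ)) ^ 2 ≤ C2 * X :=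
    (Finset.sum_le_sum_of_subset_of_nonneg (Finset.Ico_subset_Ico_left (by omega))
      (fun _ _ _ => by positivity)).trans hmom
  have hall := h P P' X L hL hB1 hPP hup hm1
  set c₂ := 4 * C1 / η' with hc₂
  set G := (Finset.Ioc X (2 * X)).filter (fun p => P' p ∧
        Kb + 1 < ((range (Nat.log 2 X + 1)).filter (fun j => L ≤ (2 : ℝ) ^ j ∧
          ¬ Good P 0 c₂ δ L p j)).card) with hG
  set G' := G.filter (fun p => X + 1 + T ≤ p) with hG'
  have k1 : G ⊆ G' ∪ Finset.Ioc X (X + T) := by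
    intro p hp
    have hp' := hp
    rw [hG, mem_filter, mem_Ioc] at hp
    rw [mem_union, hG', mem_filter, mem_Ioc]
    by_cases hh : X + 1 + T ≤ p
    · exact Or.inl ⟨hp', hh⟩
    · exact Or.inr ⟨hp.1.1, by omega⟩
  have k2 : (G.card : ℝ) ≤ G'.card + T := by
    have h1 := (card_le_card k1).trans (card_union_le _ _)
    rw [Nat.card_Ioc, Nat.add_sub_cancel_left] at h1
    exact_mod_cast h1
  have k3 := moment_method (P := P') G' (X + 1) (2 * X + 1) T (by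
    intro g hg
    rw [hG', mem_filter, hG, mem_filter, mem_Ioc] at hg
    exact ⟨by omega, by omega, hg.1.2.1⟩) (C2 * X) (by positivity) hm2
  have k4 : (Finset.Ico (X + 1) (2 * X + 1)).filter (fun m => ∃ g ∈ G', m < g ∧ g ≤ m + T) ⊆
      (Finset.Ioc X (2 * X)).filter (fun n =>
        Kb < ((range (Nat.log 2 X + 1)).filter (fun j => L ≤ (2 : ℝ) ^ j ∧
          ¬ Good P 0 c₂ (δ / 2) L n j)).card) := by
    intro m hm
    rw [mem_filter, mem_Ico] at hm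
    obtain ⟨⟨hm1, hm2⟩, g, hg, hmg, hgm⟩ := hm
    rw [hG', mem_filter, hG, mem_filter] at hg
    rw [mem_filter, mem_Ioc]
    refine ⟨⟨by omega, by omega⟩, ?_⟩
    have h5 := bad_near P 0 c₂ δ L (Nat.log 2 X) m g T hmg hgm hTL
    have h6 := hg.1.2.2
    omega
  have k5 : ((T : ℝ) * G'.card) ^ 2 / (C2 * X) ≤ η' * X := by
    refine k3.trans (le_trans ?_ hall)
    exact_mod_cast card_le_card k4
  have k6 : (T : ℝ) * G'.card ≤ η / 4 * X := by
    rw [div_le_iff₀ (by positivity)] at k5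
    have h6 : η' * X * (C2 * X) = (η / 4 * X) ^ 2 := by
      rw [hη']
      field_simp
      ring
    rw [h6] at k5
    exact abs_le_of_sq_le_sq' k5 (by positivity) |>.2
  have k7 : (G'.card : ℝ) ≤ η / 2 * (X / L) := by
    have h6 : L / 2 * G'.card ≤ η / 4 * X := by
      refine le_trans ?_ k6
      gcongr
    rw [← mul_div_assoc, le_div_iff₀ hL0]
    linarith
  linarith

/-- up to `δ` the set `P` has a constant density `μ / L` with `1 / lam ≤ μ ≤ lam` on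
`[p - D, p + D]` -/
def ConstDens (P : ℕ → Prop) [DecidablePred P] (lam δ L : ℝ) (p D : ℕ) : Prop :=
  ∃ μ : ℝ, 1 / lam ≤ μ ∧ μ ≤ lam ∧ ∀ u v : ℕ, p ≤ u + D → u ≤ v → v ≤ p + D →
    |(co P u v : ℝ) - μ * ((v : ℝ) - u) / L| ≤ δ * D / L

lemma Bal.mono {P P' : ℕ → Prop} {lam lam' L : ℝ} {X p : ℕ} (hL : 0 < L) (h0 : 0 < lam)
    (h1 : lam ≤ lam') (h : Bal P P' lam L X p) : Bal P P' lam' L X p := by
  intro a b ha hb hab
  obtain ⟨h2, h3⟩ := h a b ha hb hab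
  have h4 : (0 : ℝ) ≤ (b : ℝ) - a := by
    have : (a : ℝ) ≤ b := by exact_mod_cast (by omega : a ≤ b)
    linarith
  refine ⟨le_trans ?_ h2, h3.trans ?_⟩
  · apply div_le_div_of_nonneg_left h4 (by positivity)
    gcongr
  · have : 0 ≤ 1 + ((b : ℝ) - a) / L := by positivity
    gcongr

open Classical in
/-- at a balanced point a constant density is bounded from below -/
lemma constDens_of (P P' : ℕ → Prop) (lam0 lam c₂ δ δ' L : ℝ) (X p j : ℕ) (hL : 0 < L)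
    (h0 : 0 < lam0) (h1 : 2 * lam0 ≤ lam) (h2 : c₂ ≤ lam) (h3 : δ' ≤ δ) (h4 : δ' ≤ 1 / (2 * lam0))
    (hj : 2 ^ j ≤ X) (hp : X < p) (hb : Bal P P' lam0 L X p) (hg : Good P 0 c₂ δ' L p j) :
    ConstDens P lam δ L p (2 ^ j) := by
  obtain ⟨θ, a1, a2, a3⟩ := hg
  have h2j : (0 : ℝ) < 2 ^ j := by positivity
  refine ⟨θ, ?_, a2.trans h2, fun u v hu huv hv => (a3 u v hu huv hv).trans ?_⟩
  · obtain ⟨D, hD⟩ : ∃ D : ℕ, D = 2 ^ j := ⟨_, rfl⟩
    have hD1 : 1 ≤ D := by rw [hD]; exact Nat.one_le_two_pow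
    rw [← hD] at hj a3
    have b1 := (hb (p - D) p (by omega) le_rfl (by omega)).1
    have b2 := a3 (p - D) p (by omega) (by omega) (by omega)
    have e : ((p : ℝ) - ((p - D : ℕ) : ℝ)) = 2 ^ j := by
      rw [Nat.cast_sub (by omega), hD]
      push_cast
      ring
    rw [e] at b1 b2
    have b3 := (abs_le.1 b2).2
    have b4 : (2 : ℝ) ^ j / (lam0 * L) ≤ θ * 2 ^ j / L + δ' * 2 ^ j / L := by linarith
    have b5 : (2 : ℝ) ^ j / (lam0 * L) = 1 / lam0 * (2 ^ j / L) := by field_simp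
    have b6 : θ * 2 ^ j / L + δ' * 2 ^ j / L = (θ + δ') * (2 ^ j / L) := by ring
    rw [b5, b6] at b4
    have b7 : 1 / lam0 ≤ θ + δ' := le_of_mul_le_mul_right b4 (by positivity)
    have b8 : 1 / lam ≤ 1 / (2 * lam0) := one_div_le_one_div_of_le (by positivity) h1
    have b9 : 1 / lam0 = 1 / (2 * lam0) + 1 / (2 * lam0) := by field_simp; norm_num
    linarith
  · push_cast
    gcongr

open Classical in
/-- **Regular primes.** -/
theorem regular_local (θ : ℝ) (h0 : 0 < θ) (η : ℝ) (hη : 0 < η) : ∃ lam : ℝ, 1 ≤ lam ∧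
    ∀ δ : ℝ, 0 < δ → ∃ K : ℕ, ∀ᶠ X : ℕ in atTop, ∀ Y : ℕ, (X : ℝ) ^ θ ≤ Y → Y ≤ X →
      ∀ P : ℕ → Prop, (∀ n, P n → n.Prime) →
      (((Finset.Ioc X (X + Y)).filter (fun p => P p ∧ ¬ (Bal P Nat.Prime lam (Real.log X) Y p ∧
        ((range (Nat.log 2 Y + 1)).filter (fun j => Real.log X ≤ (2 : ℝ) ^ j ∧
          ¬ ConstDens P lam δ (Real.log X) p (2 ^ j))).card ≤ K))).card : ℝ) ≤
        η * (Y / Real.log X) := by
  obtain ⟨C1, C2, hC1, hC2, h⟩ := input θ h0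
  obtain ⟨C, hC⟩ : ∃ C : ℝ, C = 4 * √(2 * C1 * C2) + 8 := ⟨_, rfl⟩
  have hC0 : 0 < C := by rw [hC]; positivity
  obtain ⟨c₂, hc₂, hsc⟩ := scales_points C1 C2 hC1 hC2 (η / 2) (by positivity)
  obtain ⟨l0, hl0⟩ : ∃ l0 : ℝ, l0 = (2 * C / η) ^ 2 + 1 := ⟨_, rfl⟩
  have hl01 : 1 ≤ l0 := by rw [hl0]; nlinarith [sq_nonneg (2 * C / η)]
  have hl0C : C / √l0 ≤ η / 2 := by
    have h1 : 2 * C / η ≤ √l0 := by
      rw [Real.le_sqrt (by positivity) (by linarith), hl0]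
      linarith
    rw [div_le_iff₀ (Real.sqrt_pos.2 (by linarith))]
    calc C = η / 2 * (2 * C / η) := by field_simp
      _ ≤ η / 2 * √l0 := by gcongr
  refine ⟨max (2 * l0) c₂, le_trans (by linarith) (le_max_left _ _), fun δ hδ => ?_⟩
  obtain ⟨δ', hδ'⟩ : ∃ δ' : ℝ, δ' = min δ (1 / (2 * l0)) := ⟨_, rfl⟩
  have hδ'0 : 0 < δ' := by rw [hδ']; positivity
  obtain ⟨K, B0, hB0, hK⟩ := hsc δ' hδ'0
  refine ⟨K, ?_⟩
  filter_upwards [h B0] with X hX
  intro Y hY hYX P hP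
  obtain ⟨hX3, hL2, hLY, hB, hup, hmom⟩ := hX Y hY hYX
  have hL0 : 0 < Real.log X := by linarith
  have a1 := balanced_abs C1 C2 hC1 hC2 (sh P (X - Y)) (sh Nat.Prime (X - Y)) Y (Real.log X) hL2 hLY
    (fun n hn => hP _ hn) hup hmom l0 hl01
  have a2 := hK (sh P (X - Y)) (sh Nat.Prime (X - Y)) Y (Real.log X) hL2 hLY hB
    (fun n hn => hP _ hn) hup hmom
  rw [← hC] at a1
  set L := Real.log X with hL
  have hsub := card_shift X Y hYX (fun p => P p ∧ ¬ (Bal P Nat.Prime (max (2 * l0) c₂) L Y p ∧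
        ((range (Nat.log 2 Y + 1)).filter (fun j => L ≤ (2 : ℝ) ^ j ∧
          ¬ ConstDens P (max (2 * l0) c₂) δ L p (2 ^ j))).card ≤ K))
    (fun p => (sh P (X - Y) p ∧ ¬ Bal (sh P (X - Y)) (sh Nat.Prime (X - Y)) l0 L Y p) ∨
      (sh Nat.Prime (X - Y) p ∧ K < ((range (Nat.log 2 Y + 1)).filter (fun j => L ≤ (2 : ℝ) ^ j ∧
          ¬ Good (sh P (X - Y)) 0 c₂ δ' L p j)).card)) (by
    intro n hn1 hn2 hn3
    by_contra hcon
    rw [not_or] at hcon
    obtain ⟨hc1, hc2⟩ := hcon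
    obtain ⟨hn4, hn5⟩ := hn3
    have hb0 : Bal (sh P (X - Y)) (sh Nat.Prime (X - Y)) l0 L Y n := by
      by_contra hb
      exact hc1 ⟨hn4, hb⟩
    have hk0 : ((range (Nat.log 2 Y + 1)).filter (fun j => L ≤ (2 : ℝ) ^ j ∧
          ¬ Good (sh P (X - Y)) 0 c₂ δ' L n j)).card ≤ K := by
      by_contra hb
      exact hc2 ⟨hP _ hn4, not_le.1 hb⟩
    have hb1 := bal_shift P Nat.Prime l0 L X Y n hn1 hb0
    apply hn5
    refine ⟨Bal.mono hL0 (by linarith) (le_trans (by linarith) (le_max_left _ _)) hb1, ?_⟩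
    refine le_trans (card_le_card ?_) hk0
    intro j hj
    rw [mem_filter, mem_range] at hj ⊢
    obtain ⟨j1, j2, j3⟩ := hj
    refine ⟨j1, j2, fun hg => j3 ?_⟩
    have hj : 2 ^ j ≤ Y := by
      rcases Nat.eq_zero_or_pos Y with hY0 | hY0
      · omega
      · exact (Nat.pow_le_pow_right (by norm_num) (by omega)).trans
          (Nat.pow_log_le_self 2 (by omega))
    have hcd := constDens_of (sh P (X - Y)) (sh Nat.Prime (X - Y)) l0 (max (2 * l0) c₂) c₂ δ δ' L Y n j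
      hL0 (by linarith) (le_max_left _ _) (le_max_right _ _) (by rw [hδ']; exact min_le_left _ _)
      (by rw [hδ']; exact min_le_right _ _) hj hn1 hb0 hg
    obtain ⟨μ, m1, m2, m3⟩ := hcd
    refine ⟨μ, m1, m2, fun u v hu huv hv => ?_⟩
    obtain ⟨u', hu'⟩ : ∃ u', u = u' + (X - Y) := ⟨u - (X - Y), by omega⟩
    obtain ⟨v', hv'⟩ : ∃ v', v = v' + (X - Y) := ⟨v - (X - Y), by omega⟩
    have h4 := m3 u' v' (by omega) (by omega) (by omega)
    rw [co_sh, ← hu', ← hv'] at h4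
    have e1 : (v' : ℝ) - u' = (v : ℝ) - u := by rw [hu', hv']; push_cast; ring
    rwa [e1] at h4)
  have hsplit : (((Ioc Y (2 * Y)).filter (fun p =>
      (sh P (X - Y) p ∧ ¬ Bal (sh P (X - Y)) (sh Nat.Prime (X - Y)) l0 L Y p) ∨
      (sh Nat.Prime (X - Y) p ∧ K < ((range (Nat.log 2 Y + 1)).filter (fun j => L ≤ (2 : ℝ) ^ j ∧
          ¬ Good (sh P (X - Y)) 0 c₂ δ' L p j)).card))).card : ℝ) ≤
      C / √l0 * (Y / L) + η / 2 * (Y / L) := by
    rw [filter_or]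
    have h1 := card_union_le
      ((Ioc Y (2 * Y)).filter (fun p =>
        sh P (X - Y) p ∧ ¬ Bal (sh P (X - Y)) (sh Nat.Prime (X - Y)) l0 L Y p))
      ((Ioc Y (2 * Y)).filter (fun p =>
        sh Nat.Prime (X - Y) p ∧ K < ((range (Nat.log 2 Y + 1)).filter (fun j => L ≤ (2 : ℝ) ^ j ∧
          ¬ Good (sh P (X - Y)) 0 c₂ δ' L p j)).card))
    refine (Nat.cast_le.2 h1).trans ?_
    rw [Nat.cast_add]
    exact add_le_add a1 a2
  have hYL : 0 ≤ (Y : ℝ) / L := by positivity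
  calc _ ≤ _ := by exact_mod_cast hsub
    _ ≤ _ := hsplit
    _ ≤ η * (Y / L) := by nlinarith

end Pool.Agent.H243.BP
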